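import Pool.Agent.Y207.BN.Composite2

/-!
# MP_eed2ef_ag: containments of Brill-Noether loci below the secant range

On a curve of genus `g > (d - 1)²` every `g^r_d` is composed with a covering of degree at least two,
so that dropping a point of the image drops two points of the curve; hence the curve has a
`g^s_{d-2r+2s}`. For `r ≥ 2 s - 1` the degree `d - 2 r + 2 s` lies in the range in which Q1 asserts
that there is no containment.
-/

set_option autoImplicit false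

namespace Pool.Agent.Results.MP_eed2ef_ag.CompositeSeries

open Pool.Agent.Helper395.CS hiding genus
open Pool.Agent.Helper395.BC
open Pool.Agent.Y207.BN
open Pool.Agent.W518.PC (lpow)

/-- a smooth projective curve of genus `g` over `ℂ`, given by its function field -/
structure Curve (g : ℕ) where
  K : Type
  [field : Field K]
  [algebra : Algebra ℂ K]
  isCurve : IsCurve K
  genus_eq : genus K = g

attribute [instance] Curve.field Curve.algebra

/-- the curves of genus `g` which have a `g^r_d` -/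
def BN (g : ℕ) (r d : ℤ) : Set (Curve g) :=
  {C | ∃ L : LineBundle C.K, L.degree = d ∧ r + 1 ≤ (Module.finrank ℂ (H0 L) : ℤ)}

/-- the Brill-Noether number -/
def rho (g : ℕ) (r d : ℤ) : ℤ := g - (r + 1) * (g - d + r)

/-- the convention of the problem: `r ≥ 1`, `ρ < 0` and the locus is nonempty -/
def IsBNLocus (g : ℕ) (r d : ℤ) : Prop := 1 ≤ r ∧ rho g r d < 0 ∧ (BN g r d).Nonempty

/-- the assertion of Q1 in genus `g` -/
def Holds (g : ℕ) : Prop :=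
  ∀ r s d e : ℤ, d ≤ g - 1 → e ≤ g - 1 → s + 1 ≤ r → 3 ≤ s + 1 → IsBNLocus g r d →
    IsBNLocus g s e → e < d - 2 * r + 2 + s + (r - 1) / 2 → ¬ BN g r d ⊆ BN g s e

theorem nonempty_of (g : ℕ) (hg : 1 ≤ g) {s e : ℤ} (hs : 0 ≤ s) (he : 2 * s ≤ e) :
    (BN g s e).Nonempty := by
  obtain ⟨K, i1, i2, hK, hgen, A, hA, hA2⟩ := exists_hyperelliptic g hg
  obtain ⟨s', rfl⟩ := Int.eq_ofNat_of_zero_le hs
  obtain ⟨e', rfl⟩ := Int.eq_ofNat_of_zero_le (by omega : 0 ≤ e)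
  obtain ⟨M, h1, h2⟩ := series_of_hyp hK (by omega) hA hA2 (s := s') (e := e') (by omega)
  refine ⟨⟨K, hK, hgen⟩, M, h1, ?_⟩
  unfold h0 at h2
  exact_mod_cast h2

theorem subset_of (g : ℕ) {r s e : ℤ} (hr : 1 ≤ r) (hg : 2 * r + 1 ≤ g) (hs : 0 ≤ s)
    (he : 2 * s ≤ e) : BN g r (2 * r) ⊆ BN g s e := by
  rintro ⟨K, hK, hgen⟩ ⟨L, h1, h2⟩
  obtain ⟨r', rfl⟩ := Int.eq_ofNat_of_zero_le (by omega : 0 ≤ r)
  obtain ⟨s', rfl⟩ := Int.eq_ofNat_of_zero_le hs
  obtain ⟨e', rfl⟩ := Int.eq_ofNat_of_zero_le (by omega : 0 ≤ e)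
  obtain ⟨A, hA, hA2⟩ := hyp_of_series hK (r := r') (by omega) (by omega) h1
    (by unfold h0; exact_mod_cast h2)
  obtain ⟨M, h3, h4⟩ := series_of_hyp hK (by omega) hA hA2 (s := s') (e := e') (by omega)
  refine ⟨M, h3, ?_⟩
  unfold h0 at h4
  exact_mod_cast h4

theorem subset_of_large (g : ℕ) {r s d e : ℤ} (hr : 1 ≤ r) (hs : 0 ≤ s) (hsr : s ≤ r) (hd : 1 ≤ d)
    (hg : (d - 1) ^ 2 < g) (he : d - 2 * r + 2 * s ≤ e) : BN g r d ⊆ BN g s e := by
  rintro ⟨K, hK, hgen⟩ ⟨L, h1, h2⟩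
  obtain ⟨r', rfl⟩ := Int.eq_ofNat_of_zero_le (by omega : 0 ≤ r)
  obtain ⟨s', rfl⟩ := Int.eq_ofNat_of_zero_le hs
  obtain ⟨d', rfl⟩ : ∃ d' : ℕ, d = d' + 1 := ⟨(d - 1).toNat, by omega⟩
  have hg' : ((d' + 1 : ℕ) - 1) * ((d' + 1 : ℕ) - 1) < genus K := by
    rw [hgen]
    simp only [Nat.add_sub_cancel]
    have h3 : (d' : ℤ) ^ 2 < g := by simpa using hg
    rw [pow_two] at h3
    exact_mod_cast h3
  obtain ⟨M, h3, h4⟩ := series_drop hK (L := L) (d := d' + 1) (r := r') (by rw [h1]; push_cast; ring)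
    (by omega) (by unfold h0; exact_mod_cast h2) hg' (r' - s')
  obtain ⟨m, hm⟩ := Int.eq_ofNat_of_zero_le (by omega : 0 ≤ e - ((d' : ℤ) + 1 - 2 * r' + 2 * s'))
  obtain ⟨N, h5, h6⟩ := add_points hK (by omega) (L := M) (s := s' + 1) (by omega) m
  refine ⟨N, ?_, ?_⟩
  · rw [h5, h3]
    push_cast
    have h7 : (((r' - s' : ℕ) : ℤ)) = r' - s' := by
      rw [Nat.cast_sub (by omega)]
    rw [h7]
    linarith
  · unfold h0 at h6
    exact_mod_cast h6

/-- curves with a `g^1_k` have a `g^r_d` for all `d ≥ k r` -/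
theorem gonal_subset (g : ℕ) (hg : 1 ≤ g) {r d k : ℤ} (hr : 0 ≤ r) (hk : 0 ≤ k)
    (hd : k * r ≤ d) : BN g 1 k ⊆ BN g r d := by
  rintro ⟨K, hK, hgen⟩ ⟨A, h1, h2⟩
  obtain ⟨r', rfl⟩ := Int.eq_ofNat_of_zero_le hr
  have h3 : 2 ≤ h0 A := by
    unfold h0
    exact_mod_cast h2
  obtain ⟨m, hm⟩ := Int.eq_ofNat_of_zero_le (by omega : 0 ≤ d - k * r')
  obtain ⟨N, h5, h6⟩ := add_points hK (by omega) (h0_lpow hK (by omega) h3 r') m
  refine ⟨N, ?_, ?_⟩
  · rw [h5, lpow_degree', h1]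
    linarith
  · unfold h0 at h6
    exact_mod_cast h6

/-- **Q1 fails in every genus `g ≥ 7`, and systematically for large `g`.** For every `s ≥ 2`,
every `r ≥ 2 s - 1`, every `d ≥ 2 r`, every `g > (d - 1)²` and every `e` from `d - 2 r + 2 s` up to
the bound in Q1 (there is at least one such `e`), all the hypotheses of Q1 hold and the first locus
is contained in the second one; here the first locus contains all curves with a `g^1_k` for
`k ≤ d / r`. For `d = 2 r` the same is true for every `g ≥ 2 r + 1`. -/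
theorem result :
    (∀ (g : ℕ) (r s d e : ℤ), 2 ≤ s → 2 * s - 1 ≤ r → 2 * r ≤ d → (d - 1) ^ 2 < g →
      d - 2 * r + 2 * s ≤ e → e < d - 2 * r + 2 + s + (r - 1) / 2 →
        d ≤ g - 1 ∧ e ≤ g - 1 ∧ s + 1 ≤ r ∧ 3 ≤ s + 1 ∧ IsBNLocus g r d ∧
          IsBNLocus g s e ∧ BN g r d ⊆ BN g s e) ∧
    (∀ r s d : ℤ, 2 ≤ s → 2 * s - 1 ≤ r → d - 2 * r + 2 * s < d - 2 * r + 2 + s + (r - 1) / 2) ∧
    (∀ (g : ℕ) (r d k : ℤ), 1 ≤ g → 1 ≤ r → 0 ≤ k → k * r ≤ d → BN g 1 k ⊆ BN g r d) ∧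
    (∀ (g : ℕ) (r s e : ℤ), 2 ≤ s → 2 * s - 1 ≤ r → 2 * r + 1 ≤ g → 2 * s ≤ e →
      e < 2 * r - 2 * r + 2 + s + (r - 1) / 2 →
        2 * r ≤ g - 1 ∧ e ≤ g - 1 ∧ s + 1 ≤ r ∧ 3 ≤ s + 1 ∧ IsBNLocus g r (2 * r) ∧
          IsBNLocus g s e ∧ BN g r (2 * r) ⊆ BN g s e) ∧
    (∀ g : ℕ, 7 ≤ g → ¬ Holds g) ∧ ¬ ∃ g₀ : ℕ, ∀ g : ℕ, g₀ ≤ g → Holds g := by
  have large : ∀ (g : ℕ) (r s d e : ℤ), 2 ≤ s → 2 * s - 1 ≤ r → 2 * r ≤ d → (d - 1) ^ 2 < g →
      d - 2 * r + 2 * s ≤ e → e < d - 2 * r + 2 + s + (r - 1) / 2 →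
        d ≤ g - 1 ∧ e ≤ g - 1 ∧ s + 1 ≤ r ∧ 3 ≤ s + 1 ∧ IsBNLocus g r d ∧
          IsBNLocus g s e ∧ BN g r d ⊆ BN g s e := by
    intro g r s d e hs hr hd hg he1 he2
    have hd6 : 6 ≤ d := by omega
    have hg5 : 5 * (d - 1) < g := by nlinarith
    have hes : e - s ≤ d - r := by omega
    refine ⟨by omega, by omega, by omega, by omega,
      ⟨by omega, ?_, nonempty_of g (by omega) (by omega) (by omega)⟩,
      ⟨by omega, ?_, nonempty_of g (by omega) (by omega) (by omega)⟩,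
      subset_of_large g (by omega) (by omega) (by omega) (by omega) hg he1⟩
    · unfold rho
      obtain ⟨q, rfl⟩ : ∃ q, d = q + r := ⟨d - r, by ring⟩
      have h1 : q * (2 * r - 1) ≤ (q + r - 1) ^ 2 := by nlinarith
      have h2 : (r + 1) * q < r * g := by nlinarith
      nlinarith
    · unfold rho
      have h1 : (g : ℤ) < 3 * (g - e + s) := by omega
      have h2 : 3 * (g - e + s) ≤ (s + 1) * (g - e + s) :=
        mul_le_mul_of_nonneg_right (by omega) (by omega)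
      linarith
  have main : ∀ (g : ℕ) (r s e : ℤ), 2 ≤ s → 2 * s - 1 ≤ r → 2 * r + 1 ≤ g → 2 * s ≤ e →
      e < 2 * r - 2 * r + 2 + s + (r - 1) / 2 →
        2 * r ≤ g - 1 ∧ e ≤ g - 1 ∧ s + 1 ≤ r ∧ 3 ≤ s + 1 ∧ IsBNLocus g r (2 * r) ∧
          IsBNLocus g s e ∧ BN g r (2 * r) ⊆ BN g s e := by
    intro g r s e hs hr hg he1 he2
    refine ⟨by omega, by omega, by omega, by omega,
      ⟨by omega, ?_, nonempty_of g (by omega) (by omega) (by omega)⟩,
      ⟨by omega, ?_, nonempty_of g (by omega) (by omega) he1⟩,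
      subset_of g (by omega) hg (by omega) he1⟩
    · unfold rho
      nlinarith
    · unfold rho
      have h1 : (g : ℤ) < 3 * (g - e + s) := by omega
      have h2 : 3 * (g - e + s) ≤ (s + 1) * (g - e + s) :=
        mul_le_mul_of_nonneg_right (by omega) (by omega)
      linarith
  have h7 : ∀ g : ℕ, 7 ≤ g → ¬ Holds g := by
    intro g hg hH
    obtain ⟨h1, h2, h3, h4, h5, h6, h7⟩ := main g 3 2 4 (by norm_num) (by norm_num)
      (by exact_mod_cast hg) (by norm_num) (by norm_num)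
    exact hH 3 2 (2 * 3) 4 h1 h2 h3 h4 h5 h6 (by norm_num) h7
  refine ⟨large, fun r s d hs hr => by omega, fun g r d k hg hr hk hd =>
    gonal_subset g hg (by omega) hk hd, main, h7, ?_⟩
  rintro ⟨g₀, h⟩
  exact h7 (max g₀ 7) (le_max_right _ _) (h _ (le_max_left _ _))

end Pool.Agent.Results.MP_eed2ef_ag.CompositeSeries
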